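import Pool.Agent.X34.PQ.Final

/-!
# MP_6528c2_nt: growth of subset-sum counts over `{p^α q^β}` under dilation

For coprime integers `q > p > 1` let `Spq p q` be the set of the numbers `p^a q^b` and let
`f p q n` be the number of its finite subsets with sum `n`.  For every `l ≥ 2` and `ε > 0` one has
`f(l n) ≤ C n^(log 2 log l / (log p log q) + ε) f(n)` for all large `n` (and `f(n) ≥ 1` there).
-/

namespace Pool.Agent.Results.MP_6528c2_nt.DilationBound

open Finset Pool.Agent.X34.PQ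

/-- the numbers `p^a q^b` with `a, b ≥ 0` -/
def Spq (p q : ℕ) : Set ℕ := {s | ∃ a b : ℕ, s = p ^ a * q ^ b}

/-- the number of finite subsets of `Spq p q` whose sum is `n` -/
noncomputable def f (p q n : ℕ) : ℕ :=
  {T : Finset ℕ | (∀ t ∈ T, t ∈ Spq p q) ∧ ∑ t ∈ T, t = n}.ncard

theorem w_injective {p q : ℕ} (hp : 2 ≤ p) (hq : 2 ≤ q) (hcop : Nat.Coprime q p) :
    Function.Injective (w p q) := by
  have key : ∀ i j i' j' : ℕ, p ^ i * q ^ j = p ^ i' * q ^ j' → i' ≤ i := by
    intro i j i' j' h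
    by_contra hcon
    push Not at hcon
    have h1 : p ^ i' = p ^ i * p ^ (i' - i) := by rw [← pow_add]; congr 1; omega
    rw [h1, mul_assoc] at h
    have h2 : q ^ j = p ^ (i' - i) * q ^ j' := Nat.eq_of_mul_eq_mul_left (by positivity) h
    have h3 : p ∣ q ^ j := by
      rw [h2]
      exact Dvd.dvd.mul_right (dvd_pow_self p (by omega)) _
    have h4 : Nat.Coprime (q ^ j) p := Nat.Coprime.pow_left _ hcop
    have h5 := Nat.Coprime.eq_one_of_dvd h4.symm h3
    omega
  rintro ⟨i, j⟩ ⟨i', j'⟩ h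
  unfold w at h
  simp only at h
  have h1 : i = i' := le_antisymm (key i' j' i j h.symm) (key i j i' j' h)
  subst h1
  have h2 : q ^ j = q ^ j' := Nat.eq_of_mul_eq_mul_left (by positivity) h
  have h3 : j = j' := Nat.pow_right_injective hq h2
  rw [h3]

theorem f_eq {p q : ℕ} (hp : 2 ≤ p) (hq : 2 ≤ q) (hcop : Nat.Coprime q p) (n : ℕ) :
    f p q n = F p q n := by
  classical
  have hinj := w_injective hp hq hcop
  unfold f F
  rw [← Set.ncard_image_of_injective (Reps p q n)
    (Finset.map_injective (⟨w p q, hinj⟩ : ℕ × ℕ ↪ ℕ))]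
  congr 1
  ext S
  rw [Set.mem_image]
  constructor
  · rintro ⟨h1, h2⟩
    have hS : (S.preimage (w p q) hinj.injOn).map ⟨w p q, hinj⟩ = S := by
      ext s
      simp only [mem_map, mem_preimage, Function.Embedding.coeFn_mk]
      constructor
      · rintro ⟨x, hx, rfl⟩; exact hx
      · intro hs
        obtain ⟨a, b, hab⟩ := h1 s hs
        refine ⟨(a, b), ?_, ?_⟩
        · unfold w; simp only; rw [← hab]; exact hs
        · unfold w; simp only; rw [hab]
    refine ⟨S.preimage (w p q) hinj.injOn, ?_, hS⟩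
    change wt p q _ = n
    rw [← h2]
    conv_rhs => rw [← hS]
    rw [Finset.sum_map]
    rfl
  · rintro ⟨T, hT, rfl⟩
    refine ⟨?_, ?_⟩
    · intro t ht
      rw [mem_map] at ht
      obtain ⟨x, _, rfl⟩ := ht
      exact ⟨x.1, x.2, rfl⟩
    · rw [Finset.sum_map]
      exact hT

theorem result : ∀ p q : ℕ, 1 < p → p < q → Nat.Coprime p q → ∀ l : ℕ, 2 ≤ l →
    ∀ ε : ℝ, 0 < ε → ∃ (C : ℝ) (n0 : ℕ), ∀ n : ℕ, n0 ≤ n →
      1 ≤ f p q n ∧
      (f p q (l * n) : ℝ) ≤
        C * (n : ℝ) ^ (Real.log 2 * Real.log l / (Real.log p * Real.log q) + ε) * f p q n := by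
  intro p q hp hpq hcop l hl ε hε
  obtain ⟨C, n0, h⟩ := dilation (p := p) (q := q) (by omega) (by omega) hcop.symm l (by omega) hε
  obtain ⟨n1, h1⟩ := growth (p := p) (q := q) (by omega) (by omega) hcop.symm 1
  refine ⟨C, n0 + n1, fun n hn => ⟨?_, ?_⟩⟩
  · rw [f_eq (by omega) (by omega) hcop.symm]
    have := h1 n (by omega)
    omega
  · rw [f_eq (by omega) (by omega) hcop.symm, f_eq (by omega) (by omega) hcop.symm]
    exact h n (by omega)

end Pool.Agent.Results.MP_6528c2_nt.DilationBound
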